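import Pool.Agent.H.MP_c30897_gt.I

set_option autoImplicit false

namespace Pool.Agent.Results.MP_c30897_gt.Yes

open Finset Classical Topology

/-- Euclidean space. -/
abbrev E (N : ℕ) : Type := EuclideanSpace ℝ (Fin N)

/-- `M` is an embedded submanifold without boundary of class `C^3` (in particular any smooth one):
near each of its points it is the zero set of a submersion. -/
def IsSubmanifold {N : ℕ} (M : Set (E N)) : Prop :=
  ∀ x ∈ M, ∃ (k : ℕ) (φ : E N → E k) (U : Set (E N)), IsOpen U ∧ x ∈ U ∧ ContDiffOn ℝ 3 φ U ∧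
    (∀ y ∈ U, Function.Surjective (fderiv ℝ φ y)) ∧ ∀ y ∈ U, y ∈ M ↔ φ y = 0

/-- `z` is orthogonal to the tangent space of `M` at `x` (velocities at `x` of curves in `M`). -/
def IsNormal {N : ℕ} (M : Set (E N)) (x z : E N) : Prop :=
  ∀ (c : ℝ → E N) (v : E N), c 0 = x → (∀ᶠ t in 𝓝 (0 : ℝ), c t ∈ M) → HasDerivAt c v 0 →
    inner ℝ z v = 0

/-- A unit speed geodesic of `M` for the induced metric: the acceleration is normal to `M`. -/
def IsGeodesic {N : ℕ} (M : Set (E N)) (γ : ℝ → E N) : Prop :=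
  Differentiable ℝ γ ∧ Differentiable ℝ (deriv γ) ∧
    ∀ s, γ s ∈ M ∧ ‖deriv γ s‖ = 1 ∧ IsNormal M (γ s) (deriv (deriv γ) s)

/-- A closed geodesic net on `M` with vertex set `V`; the edge `e` is `γ e` on `[0, l e]`. -/
structure IsNet {N : ℕ} (M : Set (E N)) (V : Finset (E N)) {ι : Type} [Fintype ι]
    (γ : ι → ℝ → E N) (l : ι → ℝ) : Prop where
  geod : ∀ e, IsGeodesic M (γ e)
  pos : ∀ e, 0 < l e
  ends : ∀ e, γ e 0 ∈ V ∧ γ e (l e) ∈ V
  simple : ∀ e, ∀ s ∈ Set.Icc 0 (l e), ∀ t ∈ Set.Icc 0 (l e), γ e s = γ e t →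
    s = t ∨ (s = 0 ∧ t = l e) ∨ (s = l e ∧ t = 0)
  meet : ∀ e f, e ≠ f → ∀ s ∈ Set.Icc 0 (l e), ∀ t ∈ Set.Icc 0 (l f), γ e s = γ f t →
    (s = 0 ∨ s = l e) ∧ (t = 0 ∨ t = l f)
  bal : ∀ v ∈ V, ∑ e with γ e 0 = v, deriv (γ e) 0 +
    ∑ e with γ e (l e) = v, -deriv (γ e) (l e) = 0
  deg : ∀ v ∈ V, 3 ≤ (univ.filter fun e => γ e 0 = v).card +
    (univ.filter fun e => γ e (l e) = v).card

theorem result (N : ℕ) (M : Set (E N)) (hM : IsSubmanifold M) (hc : IsCompact M) :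
    ∃ f : ℝ → ℕ, ∀ (ι : Type) [Fintype ι] (V : Finset (E N)) (γ : ι → ℝ → E N) (l : ι → ℝ),
      IsNet M V γ l → V.card ≤ f (∑ e, l e) := by
  obtain ⟨C, C1, hB, hC⟩ := H.MP_c30897_gt.glob hc fun x hx => by
    obtain ⟨k, φ, U, h1, h2, h3, h4, h5⟩ := hM x hx
    exact H.MP_c30897_gt.loc h1 h3 h4 h5 h2
  choose f hf using H.MP_c30897_gt.top (V := E N) (fun j => EuclideanSpace.proj j)
    (fun j v => PiLp.norm_apply_le v j) (fun v => by
      rw [EuclideanSpace.norm_eq, Real.sqrt_le_left (by positivity)]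
      exact sum_sq_le_sq_sum_of_nonneg fun _ _ => abs_nonneg _) C1
  refine ⟨fun L => f (L + L), fun ι _ V γ l n => ?_⟩
  obtain ⟨c, c1, c2⟩ : ∃ c : ι ⊕ ι → ℝ → E N, (∀ e, c (.inl e) = γ e) ∧
      ∀ e s, c (.inr e) s = γ e (l e - s) :=
    ⟨Sum.elim γ fun e s => γ e (l e - s), fun _ => rfl, fun _ _ => rfl⟩
  obtain ⟨d, d1, d2⟩ : ∃ d : ι ⊕ ι → ℝ → E N, (∀ e, d (.inl e) = deriv (γ e)) ∧
      ∀ e s, d (.inr e) s = -deriv (γ e) (l e - s) :=
    ⟨Sum.elim (fun e => deriv (γ e)) fun e s => -deriv (γ e) (l e - s), fun _ => rfl, fun _ _ => rfl⟩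
  obtain ⟨w, w1, w2⟩ : ∃ w : ι ⊕ ι → ℝ → E N, (∀ e, w (.inl e) = deriv (deriv (γ e))) ∧
      ∀ e s, w (.inr e) s = deriv (deriv (γ e)) (l e - s) :=
    ⟨Sum.elim (fun e => deriv (deriv (γ e))) fun e s => deriv (deriv (γ e)) (l e - s),
      fun _ => rfl, fun _ _ => rfl⟩
  have k1 : ∀ h s, (c h s ∈ M ∧ HasDerivAt (c h) (d h s) s) ∧ HasDerivAt (d h) (w h s) s ∧
      ‖d h s‖ = 1 ∧ IsNormal M (c h s) (w h s) := by
    rintro (e | e) s <;> obtain ⟨g1, g2, g3⟩ := n.geod e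
    · rw [c1, d1, w1]
      exact ⟨⟨(g3 s).1, (g1 s).hasDerivAt⟩, (g2 s).hasDerivAt, (g3 s).2⟩
    · rw [funext (c2 e), funext (d2 e), w2]
      exact ⟨⟨(g3 _).1, ((g1 _).hasDerivAt.scomp s ((hasDerivAt_id s).const_sub (l e))).congr_deriv
        (by simp)⟩, ((g2 _).hasDerivAt.scomp s ((hasDerivAt_id s).const_sub (l e))).neg.congr_deriv
        (by simp),
        by rw [norm_neg]; exact (g3 _).2.1, (g3 _).2.2⟩
  have k2 : ∀ h s, H.MP_c30897_gt.St M (c h s) (d h s) (w h s) := fun h s =>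
    ⟨⟨c h, d h, s, fun r => (k1 h r).1, (k1 h s).2.1, rfl, rfl⟩, (k1 h s).2.2⟩
  have k3 := fun h g s r => (hC _ (k1 h s).1.1 _ _ (k2 h s)).2 _ (k1 g r).1.1 _ _ (k2 g r)
  refine hf _ (ι ⊕ ι) c d w (Sum.elim l l) Sum.swap V ⟨fun h s => ⟨(k1 h s).1.2, (k1 h s).2.1,
    (k1 h s).2.2.1, (hC _ (k1 h s).1.1 _ _ (k2 h s)).1, hB _ (k1 h s).1.1⟩, k3, ?_, Sum.swap_swap,
    ?_, ?_, ?_, ?_, fun v hv => ?_, fun v hv => ?_, fun h g e1 e2 => ?_⟩ (by simp)
  · rintro (e | e) <;> exact n.pos e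
  · rintro (e | e) <;> rfl
  · rintro (e | e) <;> simp [c1, c2]
  · rintro (e | e) <;> simp [d1, d2]
  · rintro (e | e)
    · rw [c1]; exact (n.ends e).1
    · rw [c2, sub_zero]; exact (n.ends e).2
  · rw [← n.bal v hv]
    simp only [sum_filter, Fintype.sum_sum_type, c1, c2, d1, d2, sub_zero]
  · refine (n.deg v hv).trans (le_of_eq ?_)
    simp only [card_filter, Fintype.sum_sum_type, c1, c2, sub_zero]
  · have u := fun s hs => H.MP_c30897_gt.uniq (by linarith) (fun s => ⟨(k1 h s).1.2, (k1 h s).2.1⟩)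
      (fun s => ⟨(k1 g s).1.2, (k1 g s).2.1⟩) (fun s => k3 h g s s) e1 e2 (s := s) hs
    have key : ∀ e f s t, 0 < s → s < l e → 0 < t → t < l f → γ e s = γ f t → e = f ∧ s = t := by
      intro e f s t s1 s2 t1 t2 q
      by_cases z : e = f
      · subst z
        exact ⟨rfl, (n.simple e s ⟨s1.le, s2.le⟩ t ⟨t1.le, t2.le⟩ q).resolve_right
          fun y => y.elim (fun y => s1.ne' y.1) fun y => s2.ne y.1⟩
      · exact (n.meet e f z s ⟨s1.le, s2.le⟩ t ⟨t1.le, t2.le⟩ q).1.elim (absurd · s1.ne')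
          (absurd · s2.ne)
    have m : ∀ e f, ∃ s, 0 < s ∧ 2 * s < l e ∧ 2 * s < l f := fun e f =>
      ⟨min (l e) (l f) / 4, by have := lt_min (n.pos e) (n.pos f); positivity,
        by linarith [min_le_left (l e) (l f), n.pos e], by linarith [min_le_right (l e) (l f), n.pos f]⟩
    rcases h with e | e <;> rcases g with g | g <;> obtain ⟨s, s0, s1, s2⟩ := m e g <;>
      have := u s s0.le <;> simp only [c1, c2] at this <;>
      obtain ⟨rfl, q⟩ := key _ _ _ _ (by linarith) (by linarith) (by linarith) (by linarith) this <;>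
      first | rfl | linarith

end Pool.Agent.Results.MP_c30897_gt.Yes
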